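import Pool.Agent.Q175.NP.Gen
import Pool.Agent.Y840.CT.LowF

/-!
# Tuples with a prime, a `P₂` and almost primes in narrow progressions
-/

set_option autoImplicit false

namespace Pool.Agent.Q175.NP.Ch

open Finset Filter
open Pool.Agent.Y840.CT (genF SysF GoodF VF rho Rough VF_low VF_mono)
open Pool.Agent.Q253.Cov (pigeon)
open Pool.Agent.Q175.NP

/-- Chen's theorem for systems, dense subsets and colourings -/
theorem genC (r : ℕ) : ∃ t : ℕ, 1 ≤ t ∧ ∃ c : ℝ, 0 < c ∧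
    (∀ θ : ℝ, 0 < θ → ∃ X₀ : ℕ, ∀ X : ℕ, X₀ ≤ X → ∀ F : ℕ → Finset ℤ, ∀ h0 : ℤ, SysF r X F h0 →
      ∀ A B : ℕ, B ≤ X → θ * X ≤ (B : ℝ) - A →
      c * ((B : ℝ) - A) * VF F X ≤ ((GoodF t X A B F h0).card : ℝ)) ∧
    (∀ k : ℕ, ∀ θ δ : ℝ, 0 < θ → 0 < δ → ∃ D X₀ : ℕ, ∀ X : ℕ, X₀ ≤ X → ∀ F : ℕ → Finset ℤ, ∀ h0 : ℤ,
      SysF r X F h0 → ∀ A B : ℕ, B ≤ X → θ * X ≤ (B : ℝ) - A →
      ∀ S : Finset ℕ, S ⊆ GoodF t X A B F h0 → δ * ((GoodF t X A B F h0).card : ℝ) ≤ S.card →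
        ∃ a d : ℕ, 1 ≤ d ∧ (d : ℝ) ≤ Real.log X ^ D ∧ ∀ j < k, a + j * d ∈ S) ∧
    (∀ (γ : Type) (_ : DecidableEq γ) (K : Finset γ), K.Nonempty → ∀ k : ℕ, ∀ θ : ℝ, 0 < θ →
      ∃ D X₀ : ℕ, ∀ X : ℕ, X₀ ≤ X → ∀ F : ℕ → Finset ℤ, ∀ h0 : ℤ,
      SysF r X F h0 → ∀ A B : ℕ, B ≤ X → θ * X ≤ (B : ℝ) - A →
      ∀ τ : ℕ → γ, (∀ p ∈ GoodF t X A B F h0, τ p ∈ K) →
        ∃ g ∈ K, ∃ a d : ℕ, 1 ≤ d ∧ (d : ℝ) ≤ Real.log X ^ D ∧
          ∀ j < k, a + j * d ∈ GoodF t X A B F h0 ∧ τ (a + j * d) = g) := by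
  classical
  obtain ⟨t, ht, c, hc, h1, h2⟩ := genF r
  refine ⟨t, ht, c, hc, h1, h2, ?_⟩
  intro γ _ K hK k θ hθ
  have hKr : (0 : ℝ) < K.card := by exact_mod_cast hK.card_pos
  obtain ⟨D, X₀, H⟩ := h2 k θ (1 / (K.card : ℝ)) hθ (by positivity)
  refine ⟨D, X₀, fun X hX F h0 hS A B hBX hAB τ hτ => ?_⟩
  obtain ⟨g, hg, hgc⟩ := pigeon (GoodF t X A B F h0) K τ hτ hK
  obtain ⟨a, d, g1, g2, g3⟩ := H X hX F h0 hS A B hBX hAB _ (filter_subset _ _) hgc
  refine ⟨g, hg, a, d, g1, g2, fun j hj => ?_⟩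
  have := g3 j hj
  rw [mem_filter] at this
  exact this

/-- positive shifts at most `X` without local obstruction -/
structure Sh {I : Type} (X : ℕ) (h : I → ℕ) : Prop where
  pos : ∀ i, 1 ≤ h i
  le : ∀ i, h i ≤ X
  loc : ∀ q : ℕ, q.Prime → ∃ n : ℕ, ¬ q ∣ n ∧ ∀ i, ¬ q ∣ n + h i

open Classical in
/-- the primes `p > X ^ (1/t)` of `(A, B]` such that `p + h j` has at most two prime factors, all larger than `X ^ (1/9)`, and
no `p + h i` has a prime factor `≤ X ^ (1/t)` -/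
noncomputable def CG {I : Type} (t X A B : ℕ) (h : I → ℕ) (j : I) : Finset ℕ :=
  (Ioc A B).filter (fun p => p.Prime ∧ (X : ℝ) ^ (1 / (t : ℝ)) < p ∧ (p + h j).primeFactorsList.length ≤ 2 ∧
    (∀ q : ℕ, q.Prime → q ∣ p + h j → (X : ℝ) ^ (1 / 9 : ℝ) < q) ∧
    ∀ i, ∀ q : ℕ, q.Prime → q ∣ p + h i → (X : ℝ) ^ (1 / (t : ℝ)) < q)

theorem mem_CG {I : Type} {t X A B : ℕ} {h : I → ℕ} {j : I} {p : ℕ} : p ∈ CG t X A B h j ↔ (A < p ∧ p ≤ B) ∧
    p.Prime ∧ (X : ℝ) ^ (1 / (t : ℝ)) < p ∧ (p + h j).primeFactorsList.length ≤ 2 ∧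
    (∀ q : ℕ, q.Prime → q ∣ p + h j → (X : ℝ) ^ (1 / 9 : ℝ) < q) ∧
    ∀ i, ∀ q : ℕ, q.Prime → q ∣ p + h i → (X : ℝ) ^ (1 / (t : ℝ)) < q := by
  classical
  unfold CG
  rw [mem_filter, mem_Ioc]

open Classical in
/-- the classes -/
noncomputable def FS {I : Type} [Fintype I] (h : I → ℕ) : ℕ → Finset ℤ := fun _ => univ.image (fun i => -(h i : ℤ))

theorem mem_FS {I : Type} [Fintype I] {h : I → ℕ} {q : ℕ} {z : ℤ} : z ∈ FS h q ↔ ∃ i, z = -(h i : ℤ) := by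
  classical
  unfold FS
  rw [mem_image]
  constructor
  · rintro ⟨i, _, hi⟩; exact ⟨i, hi.symm⟩
  · rintro ⟨i, hi⟩; exact ⟨i, mem_univ i, hi.symm⟩

theorem CG_eq {I : Type} [Fintype I] {t X A B : ℕ} {h : I → ℕ} (hp : ∀ i, 1 ≤ h i) (j : I) :
    CG t X A B h j = GoodF t X A B (FS h) (-(h j : ℤ)) := by
  classical
  ext p
  rw [mem_CG]
  unfold GoodF
  rw [mem_filter, mem_Ioc]
  have e : ∀ i, (-(h i : ℤ)) - p = -((p + h i : ℕ) : ℤ) := by intro i; push_cast; ring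
  have hd : ∀ i (q : ℕ), (q : ℤ) ∣ (-(h i : ℤ)) - p ↔ q ∣ p + h i := by
    intro i q
    rw [e, dvd_neg]
    exact Int.natCast_dvd_natCast
  refine and_congr_right fun _ => and_congr_right fun _ => and_congr_right fun _ => ?_
  unfold Rough
  rw [e, Int.natAbs_neg, Int.natAbs_natCast]
  constructor
  · rintro ⟨h1, h2, h3⟩
    refine ⟨⟨?_, h1, fun q hq hqd => ?_⟩, fun q hq hqX z hz hzd => ?_⟩
    · have := hp j
      intro hcon
      have h4 : ((p + h j : ℕ) : ℤ) = 0 := by linarith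
      have h5 : p + h j = 0 := by exact_mod_cast h4
      omega
    · rw [dvd_neg] at hqd
      exact h2 q hq (Int.natCast_dvd_natCast.1 hqd)
    · obtain ⟨i, rfl⟩ := mem_FS.1 hz
      have := h3 i q hq ((hd i q).1 hzd)
      linarith
  · rintro ⟨⟨_, h1, h2⟩, h3⟩
    refine ⟨h1, fun q hq hqd => ?_, fun i q hq hqd => ?_⟩
    · apply h2 q hq
      rw [dvd_neg]
      exact Int.natCast_dvd_natCast.2 hqd
    · by_contra hcon
      push Not at hcon
      exact h3 q hq hcon _ (mem_FS.2 ⟨i, rfl⟩) ((hd i q).2 hqd)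

theorem rho_lt {I : Type} [Fintype I] {X : ℕ} {h : I → ℕ} (hs : Sh X h) {q : ℕ} (hq : q.Prime) :
    rho (FS h q) q < q := by
  classical
  obtain ⟨n, hn0, hn⟩ := hs.loc q hq
  have hq0 : (0 : ℤ) < q := by exact_mod_cast hq.pos
  unfold rho
  have hsub : (insert 0 (FS h q)).image (fun z : ℤ => z % q) ⊆
      ((range q).image (fun c : ℕ => (c : ℤ))).erase ((n : ℤ) % q) := by
    intro z hz
    rw [mem_image] at hz
    obtain ⟨w, hw, rfl⟩ := hz
    rw [mem_erase]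
    constructor
    · intro he
      have h1 : (q : ℤ) ∣ n - w := Int.ModEq.dvd he
      rcases mem_insert.1 hw with h2 | h2
      · apply hn0
        rw [h2, sub_zero] at h1
        exact Int.natCast_dvd_natCast.1 h1
      · obtain ⟨i, rfl⟩ := mem_FS.1 h2
        apply hn i
        rw [sub_neg_eq_add] at h1
        exact_mod_cast h1
    · rw [mem_image]
      refine ⟨(w % q).toNat, ?_, ?_⟩
      · rw [mem_range]
        have h1 := Int.emod_lt_of_pos w hq0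
        have h2 := Int.emod_nonneg w hq0.ne'
        omega
      · exact Int.toNat_of_nonneg (Int.emod_nonneg w hq0.ne')
  have hmem : (n : ℤ) % q ∈ (range q).image (fun c : ℕ => (c : ℤ)) := by
    rw [mem_image]
    refine ⟨n % q, mem_range.2 (Nat.mod_lt _ hq.pos), by push_cast; rfl⟩
  refine lt_of_le_of_lt (card_le_card hsub) ?_
  rw [card_erase_of_mem hmem, card_image_of_injective _ Nat.cast_injective, card_range]
  have := hq.pos
  omega

theorem sys {I : Type} [Fintype I] {X : ℕ} {h : I → ℕ} (hs : Sh X h) (j : I) :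
    SysF (Fintype.card I) X (FS h) (-(h j : ℤ)) where
  card q _ := by
    classical
    unfold FS
    exact card_image_le
  ne := by
    have := hs.pos j
    omega
  size := by
    rw [abs_neg]
    have := hs.le j
    rw [Nat.abs_cast]
    exact_mod_cast this
  mem q _ := mem_FS.2 ⟨j, rfl⟩
  loc q hq := rho_lt hs hq

/-- the sieve product: `rho` is the number of the classes modulo `q` met by `0` and the `-h i` -/
noncomputable def VS {I : Type} [Fintype I] (h : I → ℕ) (X : ℕ) : ℝ := VF (FS h) X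

/-- **Tuples with a prime, a `P₂` and almost primes in narrow progressions**, uniformly in the shifts -/
theorem chenT (I : Type) [Fintype I] : ∃ t : ℕ, 1 ≤ t ∧
    (∃ c : ℝ, 0 < c ∧ (∀ X : ℕ, 2 ≤ X → ∀ h : I → ℕ, Sh X h → c / Real.log X ^ (Fintype.card I + 1) ≤ VS h X) ∧
      ∀ θ : ℝ, 0 < θ → ∃ X₀ : ℕ, ∀ X : ℕ, X₀ ≤ X → ∀ h : I → ℕ, Sh X h → ∀ j : I, ∀ A B : ℕ, B ≤ X →
      θ * X ≤ (B : ℝ) - A → c * (((B : ℝ) - A) * VS h X) ≤ ((CG t X A B h j).card : ℝ)) ∧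
    (∀ (L : ℕ) (θ ε : ℝ), 0 < θ → 0 < ε → ∃ D X₀ : ℕ, ∀ X : ℕ, X₀ ≤ X → ∀ h : I → ℕ, Sh X h → ∀ j : I,
      ∀ A B : ℕ, B ≤ X → θ * X ≤ (B : ℝ) - A → ∀ S ⊆ CG t X A B h j, ε * ((CG t X A B h j).card : ℝ) ≤ S.card →
      ∃ a d : ℕ, 1 ≤ d ∧ (d : ℝ) ≤ Real.log X ^ D ∧ ∀ m < L, a + m * d ∈ S) ∧
    (∀ (L k : ℕ) (θ : ℝ), 1 ≤ k → 0 < θ → ∃ D X₀ : ℕ, ∀ X : ℕ, X₀ ≤ X → ∀ h : I → ℕ, Sh X h → ∀ j : I,
      ∀ A B : ℕ, B ≤ X → θ * X ≤ (B : ℝ) - A → ∀ col : ℕ → Fin k,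
      ∃ s : I → ℕ, (∀ i, 1 ≤ s i ∧ s i ≤ 2 * t) ∧ s j ≤ 2 ∧ ∃ e : Fin k, ∃ a d : ℕ,
        1 ≤ d ∧ (d : ℝ) ≤ Real.log X ^ D ∧ ∀ m < L, a + m * d ∈ CG t X A B h j ∧ col (a + m * d) = e ∧
        ∀ i, (a + m * d + h i).primeFactorsList.length = s i) := by
  classical
  obtain ⟨t, ht, c, hc, h1, h2, h3⟩ := genC (Fintype.card I)
  obtain ⟨c', hc', hV⟩ := VF_low (Fintype.card I)
  refine ⟨t, ht, ⟨min c c', lt_min hc hc', ?_, ?_⟩, ?_, ?_⟩
  · intro X hX h hs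
    by_cases hI : Nonempty I
    · obtain ⟨j⟩ := hI
      have := hV X hX (FS h) (sys hs j).card (sys hs j).loc
      refine le_trans ?_ this
      have hl : 0 ≤ Real.log X := Real.log_natCast_nonneg _
      exact div_le_div_of_nonneg_right (min_le_right _ _) (by positivity)
    · have hloc : ∀ q : ℕ, q.Prime → rho (FS h q) q < q := fun q hq => rho_lt hs hq
      have hcd : ∀ q : ℕ, q.Prime → (FS h q).card ≤ Fintype.card I := by
        intro q _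
        unfold FS
        exact card_image_le
      have := hV X hX (FS h) hcd hloc
      refine le_trans ?_ this
      have hl : 0 ≤ Real.log X := Real.log_natCast_nonneg _
      exact div_le_div_of_nonneg_right (min_le_right _ _) (by positivity)
  · intro θ hθ
    obtain ⟨X₀, H⟩ := h1 θ hθ
    refine ⟨X₀, fun X hX h hs j A B hBX hAB => ?_⟩
    have h4 := H X hX (FS h) _ (sys hs j) A B hBX hAB
    rw [← CG_eq hs.pos] at h4
    refine le_trans ?_ h4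
    have hBA : 0 ≤ (B : ℝ) - A := le_trans (by positivity) hAB
    have hVn : 0 ≤ VF (FS h) X := (VF_mono (fun q hq => rho_lt hs hq) le_rfl).2
    unfold VS
    calc min c c' * (((B : ℝ) - A) * VF (FS h) X) ≤ c * (((B : ℝ) - A) * VF (FS h) X) :=
          mul_le_mul_of_nonneg_right (min_le_left _ _) (by positivity)
      _ = _ := by ring
  · intro L θ ε hθ hε
    obtain ⟨D, X₀, H⟩ := h2 L θ ε hθ hε
    refine ⟨D, X₀, fun X hX h hs j A B hBX hAB S hS hSc => ?_⟩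
    rw [CG_eq hs.pos] at hS hSc
    exact H X hX (FS h) _ (sys hs j) A B hBX hAB S hS hSc
  · intro L k θ hk hθ
    set K : Finset ((I → ℕ) × Fin k) := (Fintype.piFinset fun _ => Icc 1 (2 * t)) ×ˢ univ with hK
    have hKne : K.Nonempty := by
      rw [hK]
      refine Finset.Nonempty.product ?_ ⟨⟨0, hk⟩, mem_univ _⟩
      exact Fintype.piFinset_nonempty.2 fun _ => ⟨1, by rw [mem_Icc]; omega⟩
    obtain ⟨D, X₀, H⟩ := h3 _ inferInstance K hKne L θ hθ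
    obtain ⟨X₁, H1⟩ := h1 θ hθ
    refine ⟨D, max (max X₀ X₁) (2 + ⌈1 / θ⌉₊), fun X hX h hs j A B hBX hAB col => ?_⟩
    have hXA : max X₀ X₁ ≤ X := (le_max_left _ _).trans hX
    have hXB : 2 + ⌈1 / θ⌉₊ ≤ X := (le_max_right _ _).trans hX
    have hX2 : 2 ≤ X := by omega
    have hmem : ∀ p ∈ GoodF t X A B (FS h) (-(h j : ℤ)), ∀ i, 1 ≤ (p + h i).primeFactorsList.length ∧
        (p + h i).primeFactorsList.length ≤ 2 * t := by
      intro p hp i
      rw [← CG_eq hs.pos, mem_CG] at hp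
      obtain ⟨⟨g1, g2⟩, g3, g4, g5, g6, g7⟩ := hp
      have h5 : 2 ≤ p + h i := by
        have := g3.two_le
        omega
      refine ⟨omega_ge h5, omega_le ht hX2 (by omega) ?_ (g7 i)⟩
      have := hs.le i
      calc p + h i ≤ X + X := by omega
        _ = 2 * X := by ring
        _ ≤ X * X := Nat.mul_le_mul_right _ hX2
        _ = X ^ 2 := (sq X).symm
    obtain ⟨g, hg, a, d, hd1, hd2, hd3⟩ := H X ((le_max_left _ _).trans hXA) (FS h) _ (sys hs j) A B hBX hAB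
      (fun p => ((fun i => (p + h i).primeFactorsList.length), col p)) (by
        intro p hp
        rw [hK, mem_product, Fintype.mem_piFinset]
        refine ⟨fun i => ?_, mem_univ _⟩
        rw [mem_Icc]
        exact hmem p hp i)
    rw [hK, mem_product, Fintype.mem_piFinset] at hg
    rcases Nat.eq_zero_or_pos L with hL | hL
    · refine ⟨fun i => 1, fun i => ⟨le_rfl, by show 1 ≤ 2 * t; omega⟩, by norm_num, g.2, a, d, hd1, hd2, fun m hm => ?_⟩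
      omega
    · refine ⟨g.1, fun i => mem_Icc.1 (hg.1 i), ?_, g.2, a, d, hd1, hd2, fun m hm => ?_⟩
      · obtain ⟨g1, g2⟩ := hd3 0 hL
        rw [← CG_eq hs.pos, mem_CG] at g1
        have : (a + 0 * d + h j).primeFactorsList.length = g.1 j := by rw [← g2]
        rw [← this]
        exact g1.2.2.2.1
      · obtain ⟨g1, g2⟩ := hd3 m hm
        refine ⟨?_, ?_, fun i => ?_⟩
        · rw [CG_eq hs.pos]; exact g1
        · rw [← g2]
        · rw [← g2]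

end Pool.Agent.Q175.NP.Ch
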