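import Pool.Agent.Q175.NP.Gen

/-!
# Narrow progressions in sifted sets inside a residue class
-/

set_option autoImplicit false

namespace Pool.Agent.Q175.NP

open Finset Filter
open Pool.Agent.Q253.Thin (SysZ IS int_lower VZ_nonneg)
open Pool.Agent.Y843.HS (VV Pr Pr_mem Pr_prime)

open Classical in
/-- the class `b₀` modulo `M` is prescribed -/
noncomputable def ZC (M b₀ : ℕ) (Z : ℕ → Finset ℕ) (q : ℕ) : Finset ℕ :=
  if q = M then (range M).filter (fun c => c ≠ b₀) else Z q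

theorem sysC {r M b₀ : ℕ} (hb : b₀ < M) {Z : ℕ → Finset ℕ} (h : SysZ r Z) :
    SysZ (max r (M - 1)) (ZC M b₀ Z) := by
  classical
  have hc : ((range M).filter (fun c => c ≠ b₀)).card = M - 1 := by
    rw [filter_ne', card_erase_of_mem (mem_range.2 hb), card_range]
  refine ⟨fun p hp => ?_, fun p hp => ?_, fun p hp c hcm => ?_⟩
  · unfold ZC
    split_ifs
    · rw [hc]; exact le_max_right _ _
    · exact (h.card p hp).trans (le_max_left _ _)
  · unfold ZC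
    split_ifs with hpM
    · rw [hc, hpM]; omega
    · exact h.loc p hp
  · unfold ZC at hcm
    split_ifs at hcm with hpM
    · rw [mem_filter, mem_range] at hcm
      rw [hpM]; exact hcm.1
    · exact h.lt p hp c hcm

theorem VV_C {r M b₀ : ℕ} (hM : 1 ≤ M) (hb : b₀ < M) {Z : ℕ → Finset ℕ} (h : SysZ r Z) (X : ℕ) :
    1 / (M : ℝ) * VV Z 0 X ≤ VV (ZC M b₀ Z) 0 X := by
  classical
  have hMr : (1 : ℝ) ≤ M := by exact_mod_cast hM
  have hc : ((range M).filter (fun c => c ≠ b₀)).card = M - 1 := by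
    rw [filter_ne', card_erase_of_mem (mem_range.2 hb), card_range]
  unfold VV
  have h1 : ∀ p ∈ Pr 0 X, 0 ≤ 1 - ((Z p).card : ℝ) / p ∧ 1 - ((Z p).card : ℝ) / p ≤ 1 := by
    intro p hp
    have hpp := Pr_prime hp
    have hp0 : (0 : ℝ) < p := by exact_mod_cast hpp.pos
    have h2 : ((Z p).card : ℝ) < p := by exact_mod_cast h.loc p hpp
    constructor
    · rw [sub_nonneg, div_le_one hp0]; exact h2.le
    · have : 0 ≤ ((Z p).card : ℝ) / p := by positivity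
      linarith
  by_cases hMX : M ∈ Pr 0 X
  · have E1 := mul_prod_erase (Pr 0 X) (fun p : ℕ => 1 - ((Z p).card : ℝ) / p) hMX
    have E2 := mul_prod_erase (Pr 0 X) (fun p : ℕ => 1 - ((ZC M b₀ Z p).card : ℝ) / p) hMX
    rw [← E1, ← E2]
    have e1 : ∏ x ∈ (Pr 0 X).erase M, (1 - ((ZC M b₀ Z x).card : ℝ) / x) =
        ∏ x ∈ (Pr 0 X).erase M, (1 - ((Z x).card : ℝ) / x) := by
      apply prod_congr rfl
      intro x hx
      unfold ZC
      rw [if_neg (ne_of_mem_erase hx)]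
    have e2 : (1 : ℝ) - ((ZC M b₀ Z M).card : ℝ) / M = 1 / M := by
      unfold ZC
      rw [if_pos rfl, hc, Nat.cast_sub hM]
      field_simp
      push_cast
      ring
    rw [e1, e2]
    have hP : 0 ≤ ∏ x ∈ (Pr 0 X).erase M, (1 - ((Z x).card : ℝ) / x) :=
      prod_nonneg fun x hx => (h1 x (mem_of_mem_erase hx)).1
    have h3 := (h1 M hMX).2
    have h4 := (h1 M hMX).1
    calc 1 / (M : ℝ) * ((1 - ((Z M).card : ℝ) / M) * ∏ x ∈ (Pr 0 X).erase M, (1 - ((Z x).card : ℝ) / x)) ≤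
          1 / (M : ℝ) * (1 * ∏ x ∈ (Pr 0 X).erase M, (1 - ((Z x).card : ℝ) / x)) := by gcongr
      _ = _ := by ring
  · have e1 : ∏ x ∈ Pr 0 X, (1 - ((ZC M b₀ Z x).card : ℝ) / x) =
        ∏ x ∈ Pr 0 X, (1 - ((Z x).card : ℝ) / x) := by
      apply prod_congr rfl
      intro x hx
      unfold ZC
      rw [if_neg (fun hxM : x = M => hMX (hxM ▸ hx))]
    rw [e1]
    have hP : 0 ≤ ∏ x ∈ Pr 0 X, (1 - ((Z x).card : ℝ) / x) := prod_nonneg fun x hx => (h1 x hx).1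
    have : 1 / (M : ℝ) ≤ 1 := by
      rw [div_le_one (by linarith)]; exact hMr
    nlinarith

open Classical in
/-- the integers `≡ b₀` modulo `M` of `(A, B]` at which no form has a prime factor `≤ X ^ (1/t)` -/
noncomputable def Gc {I : Type} (M b₀ t X A B : ℕ) (a b : I → ℤ) : Finset ℕ :=
  (Ioc A B).filter (fun n => n % M = b₀ ∧ ∀ i, ∀ q : ℕ, q.Prime → (q : ℤ) ∣ a i * n + b i → (X : ℝ) ^ (1 / (t : ℝ)) < q)

theorem mem_Gc {I : Type} {M b₀ t X A B : ℕ} {a b : I → ℤ} {n : ℕ} : n ∈ Gc M b₀ t X A B a b ↔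
    (A < n ∧ n ≤ B) ∧ n % M = b₀ ∧
      ∀ i, ∀ q : ℕ, q.Prime → (q : ℤ) ∣ a i * n + b i → (X : ℝ) ^ (1 / (t : ℝ)) < q := by
  classical
  unfold Gc
  rw [mem_filter, mem_Ioc]

theorem Gc_eq {I : Type} {M b₀ t X A B : ℕ} {a b : I → ℤ} (hM : M.Prime) (hb : b₀ < M)
    (hMi : ∀ i, ¬ (M : ℤ) ∣ a i * b₀ + b i) (hX : (M : ℝ) ≤ (X : ℝ) ^ (1 / (t : ℝ))) :
    Gc M b₀ t X A B a b = IS t X A B (ZC M b₀ (ZL a b)) := by
  classical
  ext n
  rw [mem_Gc, mem_IS]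
  refine and_congr_right fun _ => ?_
  constructor
  · rintro ⟨hn, h⟩ q hq hqX hmem
    unfold ZC at hmem
    split_ifs at hmem with hqM
    · rw [mem_filter, hqM] at hmem
      exact hmem.2 hn
    · obtain ⟨i, hi⟩ := (mem_ZL a b hq.pos n).1 hmem
      have := h i q hq hi
      linarith
  · intro h
    have hn : n % M = b₀ := by
      have h1 := h M hM hX
      by_contra hcon
      apply h1
      unfold ZC
      rw [if_pos rfl, mem_filter, mem_range]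
      exact ⟨Nat.mod_lt _ hM.pos, hcon⟩
    refine ⟨hn, fun i q hq hqi => ?_⟩
    by_contra hcon
    push Not at hcon
    by_cases hqM : q = M
    · subst hqM
      rw [← form_mod, hn] at hqi
      exact hMi i hqi
    · apply h q hq hcon
      unfold ZC
      rw [if_neg hqM]
      exact (mem_ZL a b hq.pos n).2 ⟨i, hqi⟩

/-- **narrow progressions in a residue class at which all forms are almost primes** -/
theorem mainC (I : Type) [Fintype I] [Nonempty I] (M : ℕ) (hM : M.Prime) : ∃ t : ℕ, 1 ≤ t ∧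
    (∃ c : ℝ, 0 < c ∧ ∀ θ : ℝ, 0 < θ → ∃ X₀ : ℕ, ∀ X : ℕ, X₀ ≤ X → ∀ a b : I → ℤ, Adm a b →
      ∀ b₀ < M, (∀ i, ¬ (M : ℤ) ∣ a i * b₀ + b i) →
      ∀ A B : ℕ, θ * X ≤ (B : ℝ) - A → c * (((B : ℝ) - A) * VL a b X) ≤ ((Gc M b₀ t X A B a b).card : ℝ)) ∧
    (∀ (L : ℕ) (θ ε : ℝ), 0 < θ → 0 < ε → ∃ D X₀ : ℕ, ∀ X : ℕ, X₀ ≤ X → ∀ a b : I → ℤ, Adm a b →
      ∀ b₀ < M, (∀ i, ¬ (M : ℤ) ∣ a i * b₀ + b i) →
      ∀ A B : ℕ, θ * X ≤ (B : ℝ) - A → B ≤ X → ∀ S ⊆ Gc M b₀ t X A B a b,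
      ε * ((Gc M b₀ t X A B a b).card : ℝ) ≤ S.card →
      ∃ m d : ℕ, 1 ≤ d ∧ (d : ℝ) ≤ Real.log X ^ D ∧ ∀ j < L, m + j * d ∈ S) ∧
    (∀ (C L k : ℕ) (θ : ℝ), 1 ≤ k → 0 < θ → ∃ D X₀ : ℕ, ∀ X : ℕ, X₀ ≤ X → ∀ a b : I → ℤ, Adm a b →
      ∀ b₀ < M, (∀ i, ¬ (M : ℤ) ∣ a i * b₀ + b i) →
      ∀ A B : ℕ, θ * X ≤ (B : ℝ) - A → B ≤ X →
      (∀ i, ∀ n : ℕ, A < n → n ≤ B → 2 ≤ a i * n + b i ∧ a i * n + b i ≤ (X : ℤ) ^ C) →
      ∀ col : ℕ → Fin k, ∃ s : I → ℕ, (∀ i, 1 ≤ s i ∧ s i ≤ C * t) ∧ ∃ e : Fin k, ∃ m d : ℕ,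
        1 ≤ d ∧ (d : ℝ) ≤ Real.log X ^ D ∧ ∀ j < L, A < m + j * d ∧ m + j * d ≤ B ∧ col (m + j * d) = e ∧
        (m + j * d) % M = b₀ ∧
        ∀ i, (fv a b i (m + j * d)).primeFactorsList.length = s i ∧
          ∀ q : ℕ, q.Prime → q ∣ fv a b i (m + j * d) → (X : ℝ) ^ (1 / (t : ℝ)) < q) := by
  classical
  obtain ⟨t, ht, c, hc, H⟩ := int_lower (max (Fintype.card I) (M - 1)) (le_trans Fintype.card_pos (le_max_left _ _))
  have ht0 : (0 : ℝ) < t := by exact_mod_cast ht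
  have hM0 : (0 : ℝ) < M := by exact_mod_cast hM.pos
  obtain ⟨X₁, hX₁⟩ : ∃ X₁ : ℕ, ∀ X : ℕ, X₁ ≤ X → (M : ℝ) ≤ (X : ℝ) ^ (1 / (t : ℝ)) :=
    eventually_atTop.1 (((tendsto_rpow_atTop (by positivity)).comp tendsto_natCast_atTop_atTop).eventually_ge_atTop _)
  refine ⟨t, ht, ⟨c / M, by positivity, ?_⟩, ?_, ?_⟩
  · intro θ hθ
    obtain ⟨X₀, H1⟩ := H θ hθ
    refine ⟨max X₀ X₁, fun X hX a b hab b₀ hb hMi A B hAB => ?_⟩
    have hs := sysC (M := M) (b₀ := b₀) hb (sysL hab)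
    have h1 := H1 X ((le_max_left _ _).trans hX) _ hs A B hAB
    have h2 := VV_C hM.one_lt.le hb (sysL hab) X
    rw [VV_eq (ZL a b)] at h2
    rw [Gc_eq hM hb hMi (hX₁ X ((le_max_right _ _).trans hX))]
    refine le_trans ?_ h1
    have hBA : 0 ≤ (B : ℝ) - A := le_trans (by positivity) hAB
    unfold VL
    calc c / M * (((B : ℝ) - A) * ∏ p ∈ (Icc 1 X).filter Nat.Prime, (1 - ((ZL a b p).card : ℝ) / p)) =
          c * (((B : ℝ) - A) * (1 / (M : ℝ) * ∏ p ∈ (Icc 1 X).filter Nat.Prime, (1 - ((ZL a b p).card : ℝ) / p))) := by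
            ring
      _ ≤ _ := by gcongr
  · intro L θ ε hθ hε
    obtain ⟨D, X₀, H1⟩ := dense_of ht hc H L θ ε hθ hε
    refine ⟨D, max X₀ X₁, fun X hX a b hab b₀ hb hMi A B hAB hBX S hS hSc => ?_⟩
    rw [Gc_eq hM hb hMi (hX₁ X ((le_max_right _ _).trans hX))] at hS hSc
    exact H1 X ((le_max_left _ _).trans hX) _ (sysC hb (sysL hab)) A B hAB hBX S hS hSc
  · intro C L k θ hk hθ
    set K : Finset ((I → ℕ) × Fin k) := (Fintype.piFinset fun _ => Icc 1 (C * t)) ×ˢ univ with hK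
    by_cases hCt : 1 ≤ C * t
    swap
    · refine ⟨0, 3 + ⌈1 / θ⌉₊, fun X hX a b hab b₀ hb hMi A B hAB hBX hval col => ?_⟩
      exfalso
      have hC0 : C = 0 := by
        rcases Nat.eq_zero_or_pos C with h | h
        · exact h
        · exact absurd (Nat.mul_pos h ht) (by omega)
      have hX3 : (3 : ℝ) + 1 / θ ≤ X := by
        have h1 : (3 : ℝ) + (⌈1 / θ⌉₊ : ℕ) ≤ X := by exact_mod_cast hX
        have := Nat.le_ceil (1 / θ)
        linarith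
      have h2 : 1 < θ * X := by
        have : θ * (3 + 1 / θ) ≤ θ * X := by gcongr
        have e : θ * (3 + 1 / θ) = 3 * θ + 1 := by field_simp
        linarith
      have hAB' : A < B := by
        have : (A : ℝ) < B := by linarith
        exact_mod_cast this
      obtain ⟨h3, h4⟩ := hval (Classical.arbitrary I) (A + 1) (by omega) (by omega)
      rw [hC0, pow_zero] at h4
      omega
    have hKne : K.Nonempty := by
      rw [hK]
      refine Finset.Nonempty.product ?_ ⟨⟨0, hk⟩, mem_univ _⟩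
      exact Fintype.piFinset_nonempty.2 fun _ => ⟨1, by rw [mem_Icc]; omega⟩
    obtain ⟨D, X₀, H1⟩ := colour_of ht hc H K hKne L θ hθ
    refine ⟨D, max (max X₀ 2) X₁, fun X hX a b hab b₀ hb hMi A B hAB hBX hval col => ?_⟩
    have hX0 : max X₀ 2 ≤ X := (le_max_left _ _).trans hX
    have hX2 : 2 ≤ X := (le_max_right _ _).trans hX0
    have hGc := Gc_eq (A := A) (B := B) hM hb hMi (hX₁ X ((le_max_right _ _).trans hX))
    have hfv : ∀ i (n : ℕ), A < n → n ≤ B → ((fv a b i n : ℕ) : ℤ) = a i * n + b i ∧ 2 ≤ fv a b i n ∧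
        fv a b i n ≤ X ^ C := by
      intro i n h1 h2
      obtain ⟨h3, h4⟩ := hval i n h1 h2
      have h5 : ((fv a b i n : ℕ) : ℤ) = a i * n + b i := Int.toNat_of_nonneg (by omega)
      refine ⟨h5, ?_, ?_⟩
      · have : (2 : ℤ) ≤ (fv a b i n : ℕ) := by rw [h5]; exact h3
        exact_mod_cast this
      · have : ((fv a b i n : ℕ) : ℤ) ≤ ((X ^ C : ℕ) : ℤ) := by rw [h5]; push_cast; exact h4
        exact_mod_cast this
    have hpf : ∀ n ∈ IS t X A B (ZC M b₀ (ZL a b)), n % M = b₀ ∧ ∀ i, ∀ q : ℕ, q.Prime → q ∣ fv a b i n →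
        (X : ℝ) ^ (1 / (t : ℝ)) < q := by
      intro n hn
      rw [← hGc, mem_Gc] at hn
      refine ⟨hn.2.1, fun i q hq hqi => ?_⟩
      apply hn.2.2 i q hq
      rw [← (hfv i n hn.1.1 hn.1.2).1]
      exact_mod_cast hqi
    obtain ⟨g, hg, m, d, hd1, hd2, hd3⟩ := H1 X ((le_max_left _ _).trans hX0) _ (sysC hb (sysL hab)) A B hAB hBX
      (fun n => ((fun i => (fv a b i n).primeFactorsList.length), col n)) (by
        intro n hn
        rw [hK, mem_product, Fintype.mem_piFinset]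
        refine ⟨fun i => ?_, mem_univ _⟩
        obtain ⟨⟨h1, h2⟩, _⟩ := mem_IS.1 hn
        obtain ⟨_, h4, h5⟩ := hfv i n h1 h2
        rw [mem_Icc]
        exact ⟨omega_ge h4, omega_le ht hX2 (by omega) h5 ((hpf n hn).2 i)⟩)
    rw [hK, mem_product, Fintype.mem_piFinset] at hg
    refine ⟨g.1, fun i => mem_Icc.1 (hg.1 i), g.2, m, d, hd1, hd2, fun j hj => ?_⟩
    obtain ⟨h1, h2⟩ := hd3 j hj
    obtain ⟨⟨h3, h4⟩, _⟩ := mem_IS.1 h1
    refine ⟨h3, h4, ?_, (hpf _ h1).1, fun i => ⟨?_, (hpf _ h1).2 i⟩⟩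
    · rw [← h2]
    · rw [← h2]

end Pool.Agent.Q175.NP
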