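import Pool.Agent.Q175.NP.Cls

/-!
# Almost prime Cunningham chains of exact length in narrow progressions
-/

set_option autoImplicit false

namespace Pool.Agent.Q175.NP.Exact

open Finset
open Pool.Agent.Q253.Thin (VZ_low)
open Pool.Agent.Q175.NP

/-- the sign: `-1` for the first kind, `1` for the second -/
def sg (σ : Bool) : ℤ := if σ then 1 else -1

/-- the `i`-th term of the chain starting at `4 m + 2 - 1` or at `4 m + 2 + 1` -/
def T (σ : Bool) (i m : ℕ) : ℕ := if σ then 2 ^ i * (4 * m + 2) + 1 else 2 ^ i * (4 * m + 2) - 1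

open Classical in
noncomputable def G (σ : Bool) (k M t X A B : ℕ) : Finset ℕ :=
  (Ioc A B).filter (fun m => M ∣ T σ k m ∧ ∀ i < k, ∀ q : ℕ, q.Prime → q ∣ T σ i m → (X : ℝ) ^ (1 / (t : ℝ)) < q)

lemma mem_G {σ : Bool} {k M t X A B m : ℕ} : m ∈ G σ k M t X A B ↔ (A < m ∧ m ≤ B) ∧
    M ∣ T σ k m ∧ ∀ i < k, ∀ q : ℕ, q.Prime → q ∣ T σ i m → (X : ℝ) ^ (1 / (t : ℝ)) < q := by
  classical
  unfold G
  rw [mem_filter, mem_Ioc]

def ca (k : ℕ) : Fin k → ℤ := fun x => 2 ^ ((x : ℕ) + 2)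
def cb (σ : Bool) (k : ℕ) : Fin k → ℤ := fun x => 2 ^ ((x : ℕ) + 1) + sg σ

lemma T_eq (σ : Bool) (i m : ℕ) : ((T σ i m : ℕ) : ℤ) = 2 ^ (i + 2) * m + (2 ^ (i + 1) + sg σ) := by
  unfold T sg
  cases σ with
  | true =>
    simp only [if_true]
    push_cast
    ring
  | false =>
    simp only [Bool.false_eq_true, if_false]
    have h1 : 1 ≤ 2 ^ i * (4 * m + 2) := Nat.one_le_iff_ne_zero.2 (by positivity)
    rw [Nat.cast_sub h1]
    push_cast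
    ring

lemma sg_sq (σ : Bool) : sg σ * sg σ = 1 := by
  cases σ <;> simp [sg]

lemma adm (σ : Bool) (k : ℕ) : Adm (ca k) (cb σ k) where
  cop x := by
    unfold ca cb
    apply IsCoprime.pow_left
    refine ⟨-(sg σ) * 2 ^ (x : ℕ), sg σ, ?_⟩
    have := sg_sq σ
    calc -(sg σ) * 2 ^ (x : ℕ) * 2 + sg σ * (2 ^ ((x : ℕ) + 1) + sg σ) = sg σ * sg σ := by ring
      _ = 1 := this
  loc p hp := by
    have hp1 : 1 < p := hp.one_lt
    have hnot : ¬ (p : ℤ) ∣ 1 := by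
      intro h
      have : p ∣ 1 := by exact_mod_cast h
      exact absurd (Nat.le_of_dvd one_pos this) (by omega)
    have hnot' : ¬ (p : ℤ) ∣ sg σ := by
      intro h
      apply hnot
      rw [← sg_sq σ]
      exact Dvd.dvd.mul_right h _
    rcases hp.eq_two_or_odd' with h2 | h2
    · subst h2
      refine ⟨0, fun x h => ?_⟩
      apply hnot'
      unfold ca cb at h
      have h3 : (((2 : ℕ) : ℤ)) ∣ 2 ^ ((x : ℕ) + 1) := by
        rw [pow_succ]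
        exact ⟨2 ^ (x : ℕ), by push_cast; ring⟩
      have h4 := dvd_sub h h3
      have e : (2 : ℤ) ^ ((x : ℕ) + 2) * ((0 : ℕ) : ℤ) + (2 ^ ((x : ℕ) + 1) + sg σ) - 2 ^ ((x : ℕ) + 1) = sg σ := by
        push_cast; ring
      rwa [e] at h4
    · obtain ⟨r, hr⟩ := h2
      refine ⟨r, fun x h => ?_⟩
      apply hnot'
      unfold ca cb at h
      have h3 : (p : ℤ) ∣ 2 ^ ((x : ℕ) + 1) * p := Dvd.intro_left _ rfl
      have h4 := dvd_sub h h3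
      have e : (2 : ℤ) ^ ((x : ℕ) + 2) * (r : ℤ) + (2 ^ ((x : ℕ) + 1) + sg σ) - 2 ^ ((x : ℕ) + 1) * p = sg σ := by
        rw [hr]; push_cast; ring
      rwa [e] at h4

/-- the class on which a form is divisible by `M` -/
lemma class_ex {M : ℕ} (hM : M.Prime) (a b : ℤ) (ha : ¬ (M : ℤ) ∣ a) :
    ∃ b₀ < M, ∀ m : ℕ, (M : ℤ) ∣ a * m + b ↔ m % M = b₀ := by
  have : Fact M.Prime := ⟨hM⟩
  have ha' : (a : ZMod M) ≠ 0 := fun h => ha ((ZMod.intCast_zmod_eq_zero_iff_dvd a M).1 h)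
  set r : ZMod M := -(b : ZMod M) * (a : ZMod M)⁻¹ with hr
  refine ⟨r.val, ZMod.val_lt r, fun m => ?_⟩
  rw [← ZMod.intCast_zmod_eq_zero_iff_dvd]
  push_cast
  rw [show m % M = ((m : ZMod M)).val from (ZMod.val_natCast M m).symm]
  constructor
  · intro h
    congr 1
    rw [hr]
    field_simp
    linear_combination h
  · intro h
    have h2 : (m : ZMod M) = r := ZMod.val_injective M h
    rw [h2, hr]
    field_simp
    ring

/-- the chains have exact length `k` -/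
lemma comp (σ : Bool) {k M t : ℕ} (hk : 1 ≤ k) (hM : M.Prime) (ht : 1 ≤ t) : ∃ X₀ : ℕ, ∀ X : ℕ, X₀ ≤ X →
    ∀ A B : ℕ, ∀ m ∈ G σ k M t X A B, 2 ≤ m ∧ ¬ (T σ k m).Prime := by
  have ht0 : (0 : ℝ) < t := by exact_mod_cast ht
  obtain ⟨X₁, hX₁⟩ : ∃ X₁ : ℕ, ∀ X : ℕ, X₁ ≤ X → ((M + 11 : ℕ) : ℝ) ≤ (X : ℝ) ^ (1 / (t : ℝ)) :=
    Filter.eventually_atTop.1 (((tendsto_rpow_atTop (by positivity)).comp
      tendsto_natCast_atTop_atTop).eventually_ge_atTop _)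
  refine ⟨X₁, fun X hX A B m hm => ?_⟩
  obtain ⟨⟨hA, hB⟩, hMd, hq⟩ := mem_G.1 hm
  have h1 : T σ 0 m ≠ 1 := by
    unfold T
    split_ifs <;> omega
  obtain ⟨q, hqp, hqd⟩ := Nat.exists_prime_and_dvd h1
  have h2 := hq 0 (by omega) q hqp hqd
  have h3 : ((M + 11 : ℕ) : ℝ) < q := lt_of_le_of_lt (hX₁ X hX) h2
  have h4 : M + 11 < q := by exact_mod_cast h3
  have h5 : 0 < T σ 0 m := by
    unfold T
    split_ifs <;> omega
  have h6 := Nat.le_of_dvd h5 hqd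
  have h7 : T σ 0 m ≤ 4 * m + 3 := by
    unfold T
    split_ifs <;> omega
  refine ⟨by omega, fun hp => ?_⟩
  have h8 := (Nat.prime_dvd_prime_iff_eq hM hp).1 hMd
  have h9 : 2 * (4 * m + 2) ≤ 2 ^ k * (4 * m + 2) := by
    apply Nat.mul_le_mul_right
    calc 2 = 2 ^ 1 := by norm_num
      _ ≤ 2 ^ k := Nat.pow_le_pow_right (by norm_num) hk
  have h10 : 2 * (4 * m + 2) - 1 ≤ T σ k m := by
    unfold T
    split_ifs <;> omega
  omega

/-- **almost prime chains of exact length in narrow progressions** -/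
theorem core (σ : Bool) (k M : ℕ) (hk : 1 ≤ k) (hM : M.Prime) (hM2 : 2 < M)
    (hord : ∀ j, 1 ≤ j → j ≤ k → ¬ M ∣ 2 ^ j - 1) : ∃ t : ℕ, 1 ≤ t ∧
    (∃ c : ℝ, 0 < c ∧ ∀ θ : ℝ, 0 < θ → ∃ X₀ : ℕ, ∀ X : ℕ, X₀ ≤ X → ∀ A B : ℕ, θ * X ≤ (B : ℝ) - A →
      c * (((B : ℝ) - A) / Real.log X ^ k) ≤ ((G σ k M t X A B).card : ℝ)) ∧
    (∀ (L : ℕ) (θ ε : ℝ), 0 < θ → 0 < ε → ∃ D X₀ : ℕ, ∀ X : ℕ, X₀ ≤ X → ∀ A B : ℕ, θ * X ≤ (B : ℝ) - A → B ≤ X →
      ∀ S ⊆ G σ k M t X A B, ε * ((G σ k M t X A B).card : ℝ) ≤ S.card →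
      ∃ m d : ℕ, 1 ≤ d ∧ (d : ℝ) ≤ Real.log X ^ D ∧ ∀ j < L, m + j * d ∈ S) ∧
    (∀ (L c : ℕ) (θ : ℝ), 1 ≤ c → 0 < θ → ∃ D X₀ : ℕ, ∀ X : ℕ, X₀ ≤ X → ∀ A B : ℕ,
      θ * X ≤ (B : ℝ) - A → B ≤ X → ∀ col : ℕ → Fin c,
      ∃ s : ℕ → ℕ, (∀ i < k, 1 ≤ s i ∧ s i ≤ 2 * t) ∧ ∃ o : Fin c, ∃ m d : ℕ,
        1 ≤ d ∧ (d : ℝ) ≤ Real.log X ^ D ∧ ∀ j < L, m + j * d ∈ G σ k M t X A B ∧ col (m + j * d) = o ∧
        ∀ i < k, (T σ i (m + j * d)).primeFactorsList.length = s i) := by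
  classical
  have : Nonempty (Fin k) := ⟨⟨0, hk⟩⟩
  obtain ⟨t, ht, ⟨c, hc, h1⟩, h2, h3⟩ := mainC (Fin k) M hM
  have hM2' : ¬ (M : ℤ) ∣ 2 ^ (k + 2) := by
    intro h
    have h4 : M ∣ 2 ^ (k + 2) := by exact_mod_cast h
    have h5 := hM.dvd_of_dvd_pow h4
    have := Nat.le_of_dvd two_pos h5
    omega
  obtain ⟨b₀, hb₀, hcl⟩ := class_ex hM (2 ^ (k + 2)) (2 ^ (k + 1) + sg σ) hM2'
  have hMi : ∀ i : Fin k, ¬ (M : ℤ) ∣ ca k i * b₀ + cb σ k i := by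
    intro i h
    have h4 : (M : ℤ) ∣ 2 ^ (k + 2) * (b₀ : ℤ) + (2 ^ (k + 1) + sg σ) := (hcl b₀).2 (Nat.mod_eq_of_lt hb₀)
    unfold ca cb at h
    obtain ⟨r, hr⟩ : ∃ r, k = (i : ℕ) + r := ⟨k - i, by have := i.2; omega⟩
    have hr1 : 1 ≤ r := by have := i.2; omega
    have h5 : (M : ℤ) ∣ (2 ^ r - 1) * sg σ := by
      have h6 := dvd_sub (Dvd.dvd.mul_left h (2 ^ r)) h4
      have e : (2 : ℤ) ^ r * (2 ^ ((i : ℕ) + 2) * (b₀ : ℤ) + (2 ^ ((i : ℕ) + 1) + sg σ)) -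
          (2 ^ (k + 2) * (b₀ : ℤ) + (2 ^ (k + 1) + sg σ)) = (2 ^ r - 1) * sg σ := by
        have e1 : (2 : ℤ) ^ (k + 2) = 2 ^ ((i : ℕ) + r + 2) := congrArg (fun z : ℕ => (2 : ℤ) ^ (z + 2)) hr
        have e2 : (2 : ℤ) ^ (k + 1) = 2 ^ ((i : ℕ) + r + 1) := congrArg (fun z : ℕ => (2 : ℤ) ^ (z + 1)) hr
        rw [e1, e2]; ring
      rwa [e] at h6
    have h7 : (M : ℤ) ∣ 2 ^ r - 1 := by
      have h8 := Dvd.dvd.mul_right h5 (sg σ)
      rw [mul_assoc, sg_sq, mul_one] at h8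
      exact h8
    apply hord r hr1 (by omega)
    have h9 : (((2 ^ r - 1 : ℕ)) : ℤ) = 2 ^ r - 1 := by
      rw [Nat.cast_sub Nat.one_le_two_pow]; push_cast; ring
    rw [← h9] at h7
    exact_mod_cast h7
  have hG : ∀ X A B, G σ k M t X A B = Gc M b₀ t X A B (ca k) (cb σ k) := by
    intro X A B
    ext m
    rw [mem_G, mem_Gc]
    refine and_congr_right fun _ => ?_
    have h4 : M ∣ T σ k m ↔ m % M = b₀ := by
      rw [← hcl m, ← T_eq]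
      exact Int.natCast_dvd_natCast.symm
    rw [h4]
    refine and_congr_right fun _ => ?_
    constructor
    · intro h x q hq hqd
      apply h x x.2 q hq
      have : (q : ℤ) ∣ ((T σ x m : ℕ) : ℤ) := by rw [T_eq]; exact hqd
      exact_mod_cast this
    · intro h i hi q hq hqd
      apply h ⟨i, hi⟩ q hq
      have : (q : ℤ) ∣ ((T σ i m : ℕ) : ℤ) := by exact_mod_cast hqd
      rw [T_eq] at this
      exact this
  refine ⟨t, ht, ?_, ?_, ?_⟩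
  · obtain ⟨c', hc', hlow⟩ := VZ_low k hk
    refine ⟨c * c', by positivity, fun θ hθ => ?_⟩
    obtain ⟨X₀, H⟩ := h1 θ hθ
    refine ⟨max X₀ 2, fun X hX A B hAB => ?_⟩
    have h4 := H X ((le_max_left _ _).trans hX) _ _ (adm σ k) b₀ hb₀ hMi A B hAB
    have hs := sysL (adm σ k)
    rw [Fintype.card_fin] at hs
    have h5 := hlow X ((le_max_right _ _).trans hX) _ hs
    rw [VV_eq] at h5
    rw [hG]
    refine le_trans ?_ h4
    have hBA : 0 ≤ (B : ℝ) - A := le_trans (by positivity) hAB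
    unfold VL
    calc c * c' * (((B : ℝ) - A) / Real.log X ^ k) =
          c * (((B : ℝ) - A) * (c' / Real.log X ^ k)) := by ring
      _ ≤ _ := by gcongr
  · intro L θ ε hθ hε
    obtain ⟨D, X₀, H⟩ := h2 L θ ε hθ hε
    refine ⟨D, X₀, fun X hX A B hAB hBX S hS hSc => ?_⟩
    rw [hG] at hS hSc
    exact H X hX _ _ (adm σ k) b₀ hb₀ hMi A B hAB hBX S hS hSc
  · intro L c θ hc hθ
    obtain ⟨D, X₀, H⟩ := h3 2 L c θ hc hθ
    refine ⟨D, max X₀ (2 ^ (k + 3)), fun X hX A B hAB hBX col => ?_⟩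
    have hX2 : 2 ^ (k + 3) ≤ X := (le_max_right _ _).trans hX
    obtain ⟨s, hs, o, m, d, hd1, hd2, hd3⟩ := H X ((le_max_left _ _).trans hX) _ _ (adm σ k) b₀ hb₀ hMi A B hAB hBX (by
      intro x n hn1 hn2
      have e : ca k x * (n : ℤ) + cb σ k x = ((T σ x n : ℕ) : ℤ) := (T_eq σ x n).symm
      rw [e]
      have hi : 2 ^ (x : ℕ) ≤ 2 ^ k := Nat.pow_le_pow_right (by norm_num) x.2.le
      have hi1 : 1 ≤ 2 ^ (x : ℕ) := Nat.one_le_two_pow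
      have h0 : 1 * (4 * n + 2) ≤ 2 ^ (x : ℕ) * (4 * n + 2) := Nat.mul_le_mul_right _ hi1
      have h6 : 2 ^ (x : ℕ) * (4 * n + 2) ≤ 2 ^ k * (6 * X) := Nat.mul_le_mul hi (by omega)
      have h7 : 2 ^ k * (6 * X) + 2 ^ k * (2 * X) ≤ X * X := by
        calc 2 ^ k * (6 * X) + 2 ^ k * (2 * X) = 2 ^ (k + 3) * X := by ring
          _ ≤ X * X := Nat.mul_le_mul_right _ hX2
      have h8 : X ^ 2 = X * X := sq X
      have h9 : 1 ≤ 2 ^ k * (2 * X) := Nat.mul_pos Nat.one_le_two_pow (by omega)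
      have hlow : 2 ≤ T σ x n := by
        unfold T
        split_ifs <;> omega
      have hupp : T σ x n ≤ X ^ 2 := by
        unfold T
        split_ifs <;> omega
      exact ⟨by exact_mod_cast hlow, by exact_mod_cast hupp⟩) col
    have hfv : ∀ i (hi : i < k) (n : ℕ), fv (ca k) (cb σ k) ⟨i, hi⟩ n = T σ i n := by
      intro i hi n
      have e : ca k ⟨i, hi⟩ * (n : ℤ) + cb σ k ⟨i, hi⟩ = ((T σ i n : ℕ) : ℤ) := (T_eq σ i n).symm
      unfold fv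
      rw [e]
      simp
    refine ⟨fun i => if h : i < k then s ⟨i, h⟩ else 0, fun i hi => ?_, o, m, d, hd1, hd2, fun j hj => ?_⟩
    · beta_reduce
      rw [dif_pos hi]
      exact hs _
    · obtain ⟨g1, g2, g3, g3', g4⟩ := hd3 j hj
      refine ⟨?_, g3, fun i hi => ?_⟩
      · rw [hG, mem_Gc]
        refine ⟨⟨g1, g2⟩, g3', fun i q hq hqd => ?_⟩
        apply (g4 i).2 q hq
        rw [hfv i i.2]
        have : (q : ℤ) ∣ ((T σ i (m + j * d) : ℕ) : ℤ) := by rw [T_eq]; exact hqd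
        exact_mod_cast this
      · beta_reduce
        rw [dif_pos hi, ← hfv i hi]
        exact (g4 ⟨i, hi⟩).1

end Pool.Agent.Q175.NP.Exact
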