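import Pool.Agent.Q253.Cov.APd
import Pool.Agent.Q253.Thin.Poly
import Pool.Agent.Q253.Cov.Pig

/-!
# Narrow progressions in sifted sets: general form, and systems of linear forms
-/

set_option autoImplicit false

namespace Pool.Agent.Q175.NP

open Finset Filter
open Pool.Agent.Q253.Thin (SysZ IS int_lower VZ_nonneg)
open Pool.Agent.Q253.Cov (ap_dense pigeon)
open Pool.Agent.Y843.HS (VV Pr Pr_mem)

theorem mem_IS {t X A B : ℕ} {Z : ℕ → Finset ℕ} {n : ℕ} : n ∈ IS t X A B Z ↔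
    (A < n ∧ n ≤ B) ∧ ∀ q : ℕ, q.Prime → (q : ℝ) ≤ (X : ℝ) ^ (1 / (t : ℝ)) → n % q ∉ Z q := by
  classical
  unfold IS
  rw [mem_filter, mem_Ioc]

/-- dense subsets -/
theorem dense_of {r t : ℕ} (ht : 1 ≤ t) {c : ℝ} (hc : 0 < c)
    (H : ∀ θ : ℝ, 0 < θ → ∃ X₀ : ℕ, ∀ X : ℕ, X₀ ≤ X →
    ∀ Z : ℕ → Finset ℕ, SysZ r Z → ∀ A B : ℕ, θ * X ≤ (B : ℝ) - A →
      c * (((B : ℝ) - A) * VV Z 0 X) ≤ ((IS t X A B Z).card : ℝ)) (L : ℕ) (θ ε : ℝ) (hθ : 0 < θ) (hε : 0 < ε) :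
    ∃ D X₀ : ℕ, ∀ X : ℕ, X₀ ≤ X → ∀ Z : ℕ → Finset ℕ, SysZ r Z → ∀ A B : ℕ, θ * X ≤ (B : ℝ) - A → B ≤ X →
      ∀ S ⊆ IS t X A B Z, ε * ((IS t X A B Z).card : ℝ) ≤ S.card →
      ∃ m d : ℕ, 1 ≤ d ∧ (d : ℝ) ≤ Real.log X ^ D ∧ ∀ j < L, m + j * d ∈ S := by
  classical
  obtain ⟨X₁, H1⟩ := H θ hθ
  have ht0 : (0 : ℝ) < t := by exact_mod_cast ht
  obtain ⟨D, X₂, H2⟩ := ap_dense L r (1 / (t : ℝ)) (ε * (c * θ)) (by positivity)
    (by rw [div_le_one ht0]; exact_mod_cast ht) (by positivity)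
  refine ⟨D, max X₁ X₂, fun X hX Z hZ A B hAB hBX S hS hSc => ?_⟩
  apply H2 X ((le_max_right _ _).trans hX) Z hZ A S
  · intro n hn
    obtain ⟨⟨h1, h2⟩, _⟩ := mem_IS.1 (hS hn)
    rw [mem_Ioc]
    omega
  · intro n hn p hp hpX
    exact (mem_IS.1 (hS hn)).2 p hp hpX
  · have h1 := H1 X ((le_max_left _ _).trans hX) Z hZ A B hAB
    have h2 := VZ_nonneg hZ 0 X
    refine le_trans ?_ hSc
    calc ε * (c * θ) * (X * VV Z 0 X) = ε * (c * ((θ * X) * VV Z 0 X)) := by ring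
      _ ≤ ε * (c * (((B : ℝ) - A) * VV Z 0 X)) := by gcongr
      _ ≤ _ := mul_le_mul_of_nonneg_left h1 hε.le

/-- colourings -/
theorem colour_of {r t : ℕ} (ht : 1 ≤ t) {c : ℝ} (hc : 0 < c)
    (H : ∀ θ : ℝ, 0 < θ → ∃ X₀ : ℕ, ∀ X : ℕ, X₀ ≤ X →
    ∀ Z : ℕ → Finset ℕ, SysZ r Z → ∀ A B : ℕ, θ * X ≤ (B : ℝ) - A →
      c * (((B : ℝ) - A) * VV Z 0 X) ≤ ((IS t X A B Z).card : ℝ)) {γ : Type} [DecidableEq γ]
    (K : Finset γ) (hK : K.Nonempty) (L : ℕ) (θ : ℝ) (hθ : 0 < θ) :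
    ∃ D X₀ : ℕ, ∀ X : ℕ, X₀ ≤ X → ∀ Z : ℕ → Finset ℕ, SysZ r Z → ∀ A B : ℕ, θ * X ≤ (B : ℝ) - A → B ≤ X →
      ∀ τ : ℕ → γ, (∀ n ∈ IS t X A B Z, τ n ∈ K) →
      ∃ g ∈ K, ∃ m d : ℕ, 1 ≤ d ∧ (d : ℝ) ≤ Real.log X ^ D ∧ ∀ j < L, m + j * d ∈ IS t X A B Z ∧ τ (m + j * d) = g := by
  classical
  have hKr : (0 : ℝ) < K.card := by exact_mod_cast hK.card_pos
  obtain ⟨D, X₀, H1⟩ := dense_of ht hc H L θ (1 / (K.card : ℝ)) hθ (by positivity)
  refine ⟨D, X₀, fun X hX Z hZ A B hAB hBX τ hτ => ?_⟩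
  obtain ⟨g, hg, hgc⟩ := pigeon (IS t X A B Z) K τ hτ hK
  obtain ⟨m, d, h1, h2, h3⟩ := H1 X hX Z hZ A B hAB hBX _ (filter_subset _ _) hgc
  refine ⟨g, hg, m, d, h1, h2, fun j hj => ?_⟩
  have := h3 j hj
  rw [mem_filter] at this
  exact this

/-- the number of the prime factors -/
theorem omega_le {t X C m : ℕ} (ht : 1 ≤ t) (hX : 2 ≤ X) (hm : 1 ≤ m) (hmX : m ≤ X ^ C)
    (h : ∀ q : ℕ, q.Prime → q ∣ m → (X : ℝ) ^ (1 / (t : ℝ)) < q) : m.primeFactorsList.length ≤ C * t := by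
  have ht0 : (0 : ℝ) < t := by exact_mod_cast ht
  have hXr : (2 : ℝ) ≤ X := by exact_mod_cast hX
  set w : ℝ := (X : ℝ) ^ (1 / (t : ℝ)) with hw
  have hw1 : 1 < w := Real.one_lt_rpow (by linarith) (by positivity)
  have key : ∀ l : List ℕ, (∀ q ∈ l, w ≤ q) → w ^ l.length ≤ ((l.prod : ℕ) : ℝ) := by
    intro l
    induction l with
    | nil => intro _; simp
    | cons a l ih =>
      intro hl
      rw [List.length_cons, List.prod_cons, pow_succ, mul_comm, Nat.cast_mul]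
      exact mul_le_mul (hl a (by simp)) (ih (fun q hq => hl q (by simp [hq]))) (by positivity) (by positivity)
  have h1 := key m.primeFactorsList (fun q hq => (h q (Nat.prime_of_mem_primeFactorsList hq)
    (Nat.dvd_of_mem_primeFactorsList hq)).le)
  rw [Nat.prod_primeFactorsList (by omega)] at h1
  have h2 : (m : ℝ) ≤ w ^ (C * t) := by
    have h3 : (m : ℝ) ≤ (X : ℝ) ^ C := by exact_mod_cast hmX
    have h4 : w ^ (C * t) = (X : ℝ) ^ C := by
      rw [mul_comm, pow_mul, hw, ← Real.rpow_natCast ((X : ℝ) ^ (1 / (t : ℝ))) t,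
        ← Real.rpow_mul (by linarith), one_div_mul_cancel ht0.ne', Real.rpow_one]
    rw [h4]; exact h3
  have h3 := h1.trans h2
  exact (pow_le_pow_iff_right₀ hw1).1 h3

theorem omega_ge {m : ℕ} (hm : 2 ≤ m) : 1 ≤ m.primeFactorsList.length := by
  by_contra hcon
  have h4 : m.primeFactorsList = [] := List.length_eq_zero_iff.1 (by omega)
  rw [Nat.primeFactorsList_eq_nil] at h4
  omega

/-! ## systems of linear forms -/

/-- no prime divides both coefficients of a form, nor one of the forms at every integer -/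
structure Adm {I : Type} (a b : I → ℤ) : Prop where
  cop : ∀ i, IsCoprime (a i) (b i)
  loc : ∀ p : ℕ, p.Prime → ∃ n : ℕ, ∀ i, ¬ (p : ℤ) ∣ a i * n + b i

open Classical in
/-- the classes modulo `q` on which a form is divisible by `q` -/
noncomputable def ZL {I : Type} (a b : I → ℤ) (q : ℕ) : Finset ℕ :=
  (range q).filter (fun n => ∃ i, (q : ℤ) ∣ a i * n + b i)

theorem mem_ZL0 {I : Type} (a b : I → ℤ) {q n : ℕ} :
    n ∈ ZL a b q ↔ n < q ∧ ∃ i, (q : ℤ) ∣ a i * n + b i := by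
  classical
  unfold ZL
  rw [mem_filter, mem_range]

theorem form_mod (a b : ℤ) (q n : ℕ) : (q : ℤ) ∣ a * (n % q : ℕ) + b ↔ (q : ℤ) ∣ a * n + b := by
  have h1 : (q : ℤ) ∣ (a * n + b) - (a * (n % q : ℕ) + b) := by
    have : (a * n + b) - (a * (n % q : ℕ) + b) = a * ((n : ℤ) - (n : ℤ) % q) := by push_cast; ring
    rw [this]
    exact Dvd.dvd.mul_left (Int.dvd_self_sub_emod) a
  constructor
  · intro h
    have := dvd_add h1 h
    rwa [sub_add_cancel] at this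
  · intro h
    have := dvd_sub h h1
    rwa [sub_sub_cancel] at this

theorem mem_ZL {I : Type} (a b : I → ℤ) {q : ℕ} (hq : 0 < q) (n : ℕ) :
    n % q ∈ ZL a b q ↔ ∃ i, (q : ℤ) ∣ a i * n + b i := by
  rw [mem_ZL0]
  simp only [form_mod]
  exact ⟨fun h => h.2, fun h => ⟨Nat.mod_lt _ hq, h⟩⟩

theorem sysL {I : Type} [Fintype I] {a b : I → ℤ} (h : Adm a b) : SysZ (Fintype.card I) (ZL a b) where
  card p hp := by
    classical
    have hsub : ZL a b p ⊆ (univ : Finset I).biUnion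
        (fun i => (range p).filter (fun n : ℕ => (p : ℤ) ∣ a i * n + b i)) := by
      intro n hn
      rw [mem_ZL0] at hn
      obtain ⟨h1, i, h2⟩ := hn
      rw [mem_biUnion]
      exact ⟨i, mem_univ i, mem_filter.2 ⟨mem_range.2 h1, h2⟩⟩
    refine (card_le_card hsub).trans (card_biUnion_le.trans ?_)
    calc ∑ i : I, ((range p).filter (fun n : ℕ => (p : ℤ) ∣ a i * n + b i)).card ≤ ∑ i : I, 1 := by
          apply sum_le_sum
          intro i _
          rw [card_le_one]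
          intro n hn m hm
          rw [mem_filter, mem_range] at hn hm
          have h1 : (p : ℤ) ∣ a i * ((n : ℤ) - m) := by
            have := dvd_sub hn.2 hm.2
            have e : a i * (n : ℤ) + b i - (a i * (m : ℤ) + b i) = a i * ((n : ℤ) - m) := by ring
            rwa [e] at this
          have hpi : Prime (p : ℤ) := Nat.prime_iff_prime_int.1 hp
          rcases hpi.dvd_or_dvd h1 with h2 | h2
          · exfalso
            have h3 : (p : ℤ) ∣ b i := by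
              have := dvd_sub hn.2 (Dvd.dvd.mul_right h2 (n : ℤ))
              simpa using this
            have h4 := (h.cop i).isUnit_of_dvd' h2 h3
            exact hpi.not_isUnit h4
          · have h3 : (n : ℤ) ≡ m [ZMOD p] := (Int.modEq_iff_dvd.2 (by
              have : (m : ℤ) - n = -((n : ℤ) - m) := by ring
              rw [this]; exact (dvd_neg).2 h2))
            have h4 : n ≡ m [MOD p] := (Int.natCast_modEq_iff).1 h3
            exact h4.eq_of_lt_of_lt hn.1 hm.1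
      _ = Fintype.card I := by simp
  loc p hp := by
    classical
    obtain ⟨n, hn⟩ := h.loc p hp
    have h1 : ZL a b p ⊂ range p := by
      refine (Finset.ssubset_iff_of_subset (show ZL a b p ⊆ range p from
        fun m hm => mem_range.2 ((mem_ZL0 a b).1 hm).1)).2 ?_
      refine ⟨n % p, mem_range.2 (Nat.mod_lt _ hp.pos), ?_⟩
      rw [mem_ZL a b hp.pos]
      rintro ⟨i, hi⟩
      exact hn i hi
    have := card_lt_card h1
    rwa [card_range] at this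
  lt p hp c hc := by
    classical
    exact ((mem_ZL0 a b).1 hc).1

open Classical in
/-- the integers of `(A, B]` at which no form has a prime factor `≤ X ^ (1/t)` -/
noncomputable def Gf {I : Type} (t X A B : ℕ) (a b : I → ℤ) : Finset ℕ :=
  (Ioc A B).filter (fun n => ∀ i, ∀ q : ℕ, q.Prime → (q : ℤ) ∣ a i * n + b i → (X : ℝ) ^ (1 / (t : ℝ)) < q)

theorem mem_Gf {I : Type} (t X A B : ℕ) (a b : I → ℤ) {n : ℕ} : n ∈ Gf t X A B a b ↔
    (A < n ∧ n ≤ B) ∧ ∀ i, ∀ q : ℕ, q.Prime → (q : ℤ) ∣ a i * n + b i → (X : ℝ) ^ (1 / (t : ℝ)) < q := by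
  classical
  unfold Gf
  rw [mem_filter, mem_Ioc]

theorem Gf_eq {I : Type} (t X A B : ℕ) (a b : I → ℤ) : Gf t X A B a b = IS t X A B (ZL a b) := by
  classical
  ext n
  rw [mem_IS, mem_Gf]
  refine and_congr_right fun _ => ?_
  constructor
  · intro h q hq hqX hmem
    obtain ⟨i, hi⟩ := (mem_ZL a b hq.pos n).1 hmem
    have := h i q hq hi
    linarith
  · intro h i q hq hqi
    by_contra hcon
    push Not at hcon
    exact h q hq hcon ((mem_ZL a b hq.pos n).2 ⟨i, hqi⟩)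

/-- the product of the `1 - rho p / p` -/
noncomputable def VL {I : Type} (a b : I → ℤ) (X : ℕ) : ℝ :=
  ∏ p ∈ (Icc 1 X).filter Nat.Prime, (1 - ((ZL a b p).card : ℝ) / p)

theorem VV_eq (Z : ℕ → Finset ℕ) (X : ℕ) :
    VV Z 0 X = ∏ p ∈ (Icc 1 X).filter Nat.Prime, (1 - ((Z p).card : ℝ) / p) := by
  unfold VV
  apply prod_congr
  · ext q
    rw [Pr_mem, mem_filter, mem_Icc]
    constructor
    · rintro ⟨⟨a, b⟩, c⟩
      exact ⟨⟨c.pos, b⟩, c⟩
    · rintro ⟨⟨a, b⟩, c⟩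
      exact ⟨⟨c.pos, b⟩, c⟩
  · intro q _
    rfl

/-- the value of a form -/
def fv {I : Type} (a b : I → ℤ) (i : I) (n : ℕ) : ℕ := (a i * n + b i).toNat

/-- **narrow progressions at which all forms are almost primes** -/
theorem main (I : Type) [Fintype I] [Nonempty I] : ∃ t : ℕ, 1 ≤ t ∧
    (∃ c : ℝ, 0 < c ∧ ∀ θ : ℝ, 0 < θ → ∃ X₀ : ℕ, ∀ X : ℕ, X₀ ≤ X → ∀ a b : I → ℤ, Adm a b →
      ∀ A B : ℕ, θ * X ≤ (B : ℝ) - A → c * (((B : ℝ) - A) * VL a b X) ≤ ((Gf t X A B a b).card : ℝ)) ∧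
    (∀ (L : ℕ) (θ ε : ℝ), 0 < θ → 0 < ε → ∃ D X₀ : ℕ, ∀ X : ℕ, X₀ ≤ X → ∀ a b : I → ℤ, Adm a b →
      ∀ A B : ℕ, θ * X ≤ (B : ℝ) - A → B ≤ X → ∀ S ⊆ Gf t X A B a b,
      ε * ((Gf t X A B a b).card : ℝ) ≤ S.card →
      ∃ m d : ℕ, 1 ≤ d ∧ (d : ℝ) ≤ Real.log X ^ D ∧ ∀ j < L, m + j * d ∈ S) ∧
    (∀ (C L k : ℕ) (θ : ℝ), 1 ≤ k → 0 < θ → ∃ D X₀ : ℕ, ∀ X : ℕ, X₀ ≤ X → ∀ a b : I → ℤ, Adm a b →
      ∀ A B : ℕ, θ * X ≤ (B : ℝ) - A → B ≤ X →
      (∀ i, ∀ n : ℕ, A < n → n ≤ B → 2 ≤ a i * n + b i ∧ a i * n + b i ≤ (X : ℤ) ^ C) →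
      ∀ col : ℕ → Fin k, ∃ s : I → ℕ, (∀ i, 1 ≤ s i ∧ s i ≤ C * t) ∧ ∃ e : Fin k, ∃ m d : ℕ,
        1 ≤ d ∧ (d : ℝ) ≤ Real.log X ^ D ∧ ∀ j < L, A < m + j * d ∧ m + j * d ≤ B ∧ col (m + j * d) = e ∧
        ∀ i, (fv a b i (m + j * d)).primeFactorsList.length = s i ∧
          ∀ q : ℕ, q.Prime → q ∣ fv a b i (m + j * d) → (X : ℝ) ^ (1 / (t : ℝ)) < q) := by
  classical
  obtain ⟨t, ht, c, hc, H⟩ := int_lower (Fintype.card I) Fintype.card_pos
  refine ⟨t, ht, ⟨c, hc, ?_⟩, ?_, ?_⟩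
  · intro θ hθ
    obtain ⟨X₀, H1⟩ := H θ hθ
    refine ⟨X₀, fun X hX a b hab A B hAB => ?_⟩
    have := H1 X hX (ZL a b) (sysL hab) A B hAB
    rw [VV_eq] at this
    rw [Gf_eq]
    exact this
  · intro L θ ε hθ hε
    obtain ⟨D, X₀, H1⟩ := dense_of ht hc H L θ ε hθ hε
    refine ⟨D, X₀, fun X hX a b hab A B hAB hBX S hS hSc => ?_⟩
    rw [Gf_eq] at hS hSc
    exact H1 X hX (ZL a b) (sysL hab) A B hAB hBX S hS hSc
  · intro C L k θ hk hθ
    set K : Finset ((I → ℕ) × Fin k) := (Fintype.piFinset fun _ => Icc 1 (C * t)) ×ˢ univ with hK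
    by_cases hCt : 1 ≤ C * t
    swap
    · -- no integer satisfies the condition on the values
      refine ⟨0, 3 + ⌈1 / θ⌉₊, fun X hX a b hab A B hAB hBX hval col => ?_⟩
      exfalso
      have hC0 : C = 0 := by
        rcases Nat.eq_zero_or_pos C with h | h
        · exact h
        · exact absurd (Nat.mul_pos h ht) (by omega)
      have hX3 : (3 : ℝ) + 1 / θ ≤ X := by
        have h1 : (3 : ℝ) + (⌈1 / θ⌉₊ : ℕ) ≤ X := by exact_mod_cast hX
        have := Nat.le_ceil (1 / θ)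
        linarith
      have h2 : 1 < θ * X := by
        have : θ * (3 + 1 / θ) ≤ θ * X := by gcongr
        have e : θ * (3 + 1 / θ) = 3 * θ + 1 := by field_simp
        linarith
      have hAB' : A < B := by
        have : (A : ℝ) < B := by linarith
        exact_mod_cast this
      obtain ⟨h3, h4⟩ := hval (Classical.arbitrary I) (A + 1) (by omega) (by omega)
      rw [hC0, pow_zero] at h4
      omega
    have hKne : K.Nonempty := by
      rw [hK]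
      refine Finset.Nonempty.product ?_ ⟨⟨0, hk⟩, mem_univ _⟩
      exact Fintype.piFinset_nonempty.2 fun _ => ⟨1, by rw [mem_Icc]; omega⟩
    obtain ⟨D, X₀, H1⟩ := colour_of ht hc H K hKne L θ hθ
    refine ⟨D, max X₀ 2, fun X hX a b hab A B hAB hBX hval col => ?_⟩
    have hX2 : 2 ≤ X := (le_max_right _ _).trans hX
    have hfv : ∀ i (n : ℕ), A < n → n ≤ B → ((fv a b i n : ℕ) : ℤ) = a i * n + b i ∧ 2 ≤ fv a b i n ∧
        fv a b i n ≤ X ^ C := by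
      intro i n h1 h2
      obtain ⟨h3, h4⟩ := hval i n h1 h2
      have h5 : ((fv a b i n : ℕ) : ℤ) = a i * n + b i := Int.toNat_of_nonneg (by omega)
      refine ⟨h5, ?_, ?_⟩
      · have : (2 : ℤ) ≤ (fv a b i n : ℕ) := by rw [h5]; exact h3
        exact_mod_cast this
      · have : ((fv a b i n : ℕ) : ℤ) ≤ ((X ^ C : ℕ) : ℤ) := by rw [h5]; push_cast; exact h4
        exact_mod_cast this
    have hpf : ∀ n ∈ IS t X A B (ZL a b), ∀ i, ∀ q : ℕ, q.Prime → q ∣ fv a b i n →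
        (X : ℝ) ^ (1 / (t : ℝ)) < q := by
      intro n hn i q hq hqi
      rw [← Gf_eq] at hn
      rw [mem_Gf] at hn
      apply hn.2 i q hq
      rw [← (hfv i n hn.1.1 hn.1.2).1]
      exact_mod_cast hqi
    obtain ⟨g, hg, m, d, hd1, hd2, hd3⟩ := H1 X ((le_max_left _ _).trans hX) (ZL a b) (sysL hab) A B hAB hBX
      (fun n => ((fun i => (fv a b i n).primeFactorsList.length), col n)) (by
        intro n hn
        rw [hK, mem_product, Fintype.mem_piFinset]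
        refine ⟨fun i => ?_, mem_univ _⟩
        obtain ⟨⟨h1, h2⟩, _⟩ := mem_IS.1 hn
        obtain ⟨_, h4, h5⟩ := hfv i n h1 h2
        rw [mem_Icc]
        exact ⟨omega_ge h4, omega_le ht hX2 (by omega) h5 (hpf n hn i)⟩)
    rw [hK, mem_product, Fintype.mem_piFinset] at hg
    refine ⟨g.1, fun i => mem_Icc.1 (hg.1 i), g.2, m, d, hd1, hd2, fun j hj => ?_⟩
    obtain ⟨h1, h2⟩ := hd3 j hj
    obtain ⟨⟨h3, h4⟩, _⟩ := mem_IS.1 h1
    refine ⟨h3, h4, ?_, fun i => ⟨?_, hpf _ h1 i⟩⟩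
    · rw [← h2]
    · rw [← h2]

end Pool.Agent.Q175.NP
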